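import Pool.Agent.H778R3.Lin.Topo

/-!
# The set of lineons has an explicit description

All definitions are in `Pool.Agent.H778R3.Lin.Defs`. The set of lineons is the common solution set
of a computably enumerable family of polynomial inequalities with rational coefficients, each in
finitely many coordinates.

The family: for every `n` and every finite list of pairs (code of a coordinate `c_j`, natural
number `a_j`), with `M` the total number of vertices of the models `c_j` and `D = 2^(nM)`, let `R`
be the minimum over all `A ⊆ F_2^n` of `∑_j (N_j(A) - a_j)^2`, where `N_j(A)` is the number of
`M`-tuples of vectors whose first entries induce in `M_A` a model isomorphic to `c_j`. The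
inequality is `2 * 2^n * ∑_j (D x_{c_j} - a_j)^2 + 2 k 4^M D^2 - 2^n R ≥ 0`.
It holds for lineons by a second moment argument (random linear maps `F_2^n → F_2^N`), and the
inequalities together force a point to be a lineon.
-/

namespace Pool.Agent.Results.MP_236854_co.ExplicitDescription

open Pool.Agent.H778R3.Lin

/-- The set of lineons has an explicit description: there is a computably enumerable family of
polynomial inequalities with rational coefficients, each in finitely many coordinates of
`[0,1]^M`, whose common solution set is exactly the set of lineons. -/
theorem result : HasExplicitDescription {x | IsLineon x} :=
  Pool.Agent.H778R3.Lin.main

end Pool.Agent.Results.MP_236854_co.ExplicitDescription
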